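import Pool.Agent.X189.BS.Stm

/-! Part E1 of the joint project BS (MP_4f027a_co). -/

namespace Pool.Agent.X263.BS

open Equiv Pool.Agent.X189.BS

variable {n : ℕ}

lemma before (q : ℤ) (hq : 0 < q) (a c : Fin (n + 1)) :
    ∀ (P rest : List (Fin (n + 1) × Fin (n + 1))), Val a c (P ++ rest) →
      0 < P.foldl (vstep q) (Pi.single a 1) a ∧
      (∀ z, 0 ≤ P.foldl (vstep q) (Pi.single a 1) z) ∧
      (∀ z, a < z → (a, z) ∉ P → P.foldl (vstep q) (Pi.single a 1) z = 0) := by
  intro P
  induction P using List.reverseRecOn with
  | nil =>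
    intro rest _
    refine ⟨by simp, fun z => ?_, fun z hz _ => ?_⟩
    · by_cases h : z = a
      · subst h; simp
      · simp [Pi.single_eq_of_ne h]
    · simp [Pi.single_eq_of_ne (ne_of_gt hz)]
  | append_singleton P e ih =>
    intro rest hV
    have hV' : Val a c (P ++ (e :: rest)) := by simpa using hV
    obtain ⟨h1, h2, h3⟩ := ih (e :: rest) hV'
    obtain ⟨v1, v2, v3, v4, v5, v6, v7⟩ := hV' P e rest rfl
    rw [List.foldl_append]
    simp only [List.foldl_cons, List.foldl_nil]
    set X := P.foldl (vstep q) (Pi.single a 1) with hX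
    refine ⟨?_, fun z => ?_, fun z hz hzn => ?_⟩
    · unfold vstep
      split_ifs with h
      · have ha : a = e.1 := by
          rcases h with h | h
          · exact h
          · exact absurd (lt_of_le_of_lt v1 v2) (by rw [← h]; exact lt_irrefl _)
        rw [← ha]
        have := h2 e.2
        positivity
      · positivity
    · unfold vstep
      have := h2 e.1
      have := h2 e.2
      have := h2 z
      split_ifs <;> positivity
    · have hn1 : (a, z) ∉ P := fun h => hzn (by simp [h])
      have hn2 : (a, z) ≠ e := fun h => hzn (by simp [h])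
      unfold vstep
      split_ifs with h
      · have ha : a < e.1 := by
          rcases lt_or_eq_of_le v1 with h' | h'
          · exact h'
          · exfalso
            rcases h with h | h
            · rw [h, ← h'] at hz; exact lt_irrefl _ hz
            · exact hn2 (Prod.ext h' h)
        have hh := v6 a le_rfl ha
        have k1 : (a, e.1) ∉ P := by
          rcases h with h | h
          · rwa [h] at hn1
          · rw [h] at hn1; exact fun hc => hn1 (hh.1 hc)
        have k2 : (a, e.2) ∉ P := fun hc => k1 (hh.2 hc)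
        rw [h3 e.1 ha k1, h3 e.2 (ha.trans v2) k2]
        simp
      · rw [h3 z hz hn1, mul_zero]

lemma after (q : ℤ) (hq : 0 < q) (a c : Fin (n + 1))
    (Q : List (Fin (n + 1) × Fin (n + 1))) (X Y : Fin (n + 1) → ℤ) (hc : X c < Y c)
    (hz : ∀ z, z < c → (z, c) ∉ Q → X z = Y z) :
    ∀ (S rest : List (Fin (n + 1) × Fin (n + 1))), Val a c (Q ++ (S ++ rest)) →
      S.foldl (vstep q) X c < S.foldl (vstep q) Y c ∧
      ∀ z, z < c → (z, c) ∉ Q ++ S → S.foldl (vstep q) X z = S.foldl (vstep q) Y z := by
  intro S
  induction S using List.reverseRecOn with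
  | nil =>
    intro rest _
    exact ⟨hc, by simpa using hz⟩
  | append_singleton S e ih =>
    intro rest hV
    have hV1 : Val a c (Q ++ (S ++ (e :: rest))) := by simpa using hV
    obtain ⟨h1, h2⟩ := ih (e :: rest) hV1
    have hV2 : Val a c ((Q ++ S) ++ (e :: rest)) := by simpa using hV
    obtain ⟨v1, v2, v3, v4, v5, v6, v7⟩ := hV2 (Q ++ S) e rest rfl
    rw [List.foldl_append, List.foldl_append]
    simp only [List.foldl_cons, List.foldl_nil]
    set X' := S.foldl (vstep q) X
    set Y' := S.foldl (vstep q) Y
    refine ⟨?_, fun z hz' hzn => ?_⟩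
    · unfold vstep
      split_ifs with h
      · have hc2 : c = e.2 := by
          rcases h with h | h
          · exact absurd (lt_of_lt_of_le v2 v3) (by rw [← h]; exact lt_irrefl _)
          · exact h
        have he : (e.1, c) = e := Prod.ext rfl hc2
        have hX : X' e.1 = Y' e.1 := h2 e.1 (by rw [hc2]; exact v2) (by rw [he]; exact v4)
        rw [← hc2, hX]
        have := mul_lt_mul_of_pos_left h1 hq
        linarith
      · have : 0 < 1 + q := by linarith
        exact mul_lt_mul_of_pos_left h1 this
    · have hn1 : (z, c) ∉ Q ++ S := fun h => hzn (by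
        rw [← List.append_assoc]; exact List.mem_append_left _ h)
      have hn2 : (z, c) ≠ e := fun h => hzn (by simp [h])
      unfold vstep
      split_ifs with h
      · have he2 : e.2 < c := by
          rcases lt_or_eq_of_le v3 with h' | h'
          · exact h'
          · exfalso
            rcases h with h | h
            · exact hn2 (Prod.ext h h'.symm)
            · rw [h, h'] at hz'; exact lt_irrefl _ hz'
        have hh := v5 c he2 le_rfl
        have k2 : (e.2, c) ∉ Q ++ S := by
          rcases h with h | h
          · rw [h] at hn1; exact fun hc => hn1 (hh.1 hc)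
          · rwa [h] at hn1
        have k1 : (e.1, c) ∉ Q ++ S := fun hc => k2 (hh.2 hc)
        rw [h2 e.1 (v2.trans he2) k1, h2 e.2 he2 k2]
      · rw [h2 z hz' hn1]

theorem t_E1 : Pool.Agent.X189.BS.S_E1 := by
  intro n q a b c P S hq hab hbc hV
  have hac := hab.trans hbc
  have hV1 : Val a c (P ++ ((a, b) :: (a, c) :: (b, c) :: S)) := hV
  obtain ⟨h1, h2, h3⟩ := before q hq a c P _ hV1
  obtain ⟨-, -, -, vab, -⟩ := hV P (a, b) ((a, c) :: (b, c) :: S) rfl
  obtain ⟨-, -, -, vac, -⟩ := hV (P ++ [(a, b)]) (a, c) ((b, c) :: S) (by simp)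
  have vac' : (a, c) ∉ P := fun h => vac (by simp [h])
  have hb0 := h3 b hab vab
  have hc0 := h3 c hac vac'
  set X0 := P.foldl (vstep q) (Pi.single a 1) with hX0
  rw [List.foldl_append, List.foldl_append]
  simp only [List.foldl_cons, ← hX0]
  have nab : a ≠ b := ne_of_lt hab
  have nbc : b ≠ c := ne_of_lt hbc
  have nac : a ≠ c := ne_of_lt hac
  have hV3 : Val a c ((P ++ [(a, b), (a, c), (b, c)]) ++ (S ++ [])) := by simpa using hV
  refine (after q hq a c (P ++ [(a, b), (a, c), (b, c)]) _ _ ?_ ?_ S [] hV3).1
  · simp only [vstep, nab, nbc, nac, nab.symm, nbc.symm, nac.symm, hb0, hc0, if_true, if_false,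
      or_true, true_or, or_false, false_or, mul_zero, add_zero]
    nlinarith [mul_pos (mul_pos hq hq) h1]
  · intro z hz hzn
    have hza : z ≠ a := fun h => hzn (by simp [h])
    have hzb : z ≠ b := fun h => hzn (by simp [h])
    have hzc : z ≠ c := ne_of_lt hz
    simp only [vstep, hza, hzb, hzc, or_false, if_false]

end Pool.Agent.X263.BS
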