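import Pool.Agent.X263.BS.E2b

set_option linter.unusedSimpArgs false

/-! Part E2 of the joint project BS (MP_4f027a_co). -/

namespace Pool.Agent.X263.BS

open Equiv Pool.Agent.X189.BS List

variable {n : ℕ}

lemma ord_of_eqv {L L' : List (Fin (n + 1) × Fin (n + 1))} (p : Fin (n + 1) × Fin (n + 1) → Bool)
    (h : Eqv (L.filter p) (L'.filter p)) (x : Fin (n + 1)) {u v : Fin (n + 1) × Fin (n + 1)}
    (hu : u.1 = x ∨ u.2 = x) (hv : v.1 = x ∨ v.2 = x) (pu : p u = true) (pv : p v = true)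
    (h' : [u, v] <+ L) : [u, v] <+ L' := by
  have h1 : [u, v] <+ L.filter p := (bf_filter p).2 ⟨h', pu, pv⟩
  have h2 : [u, v] <+ loc x (L.filter p) := by
    unfold loc; exact (bf_filter _).2 ⟨h1, by simpa using hu, by simpa using hv⟩
  rw [h x] at h2
  unfold loc at h2
  exact ((bf_filter p).1 ((bf_filter _).1 h2).1).1

lemma ordI {L L' : List (Fin (n + 1) × Fin (n + 1))} (hN : L.Nodup) (hN' : L'.Nodup)
    (hm : ∀ e, e ∈ L ↔ e ∈ L') (p : Fin (n + 1) × Fin (n + 1) → Bool)
    (h : Eqv (L.filter p) (L'.filter p)) (x : Fin (n + 1)) {u v : Fin (n + 1) × Fin (n + 1)}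
    (hv' : v ∈ L)
    (hu : u.1 = x ∨ u.2 = x) (hv : v.1 = x ∨ v.2 = x) (pu : p u = true) (pv : p v = true) :
    ix L u < ix L v ↔ ix L' u < ix L' v := by
  constructor
  · intro h1
    exact ((bf_iff hN').1 (ord_of_eqv p h x hu hv pu pv ((bf_iff hN).2 ⟨hv', h1⟩))).2
  · intro h1
    exact ((bf_iff hN).1 (ord_of_eqv p (Eqv.symm' h) x hu hv pu pv
      ((bf_iff hN').2 ⟨(hm v).1 hv', h1⟩))).2

lemma eqv_of_pairs {L L' : List (Fin (n + 1) × Fin (n + 1))} (hN : L.Nodup) (hN' : L'.Nodup)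
    (hm : ∀ e, e ∈ L ↔ e ∈ L')
    (h : ∀ x u v, (u.1 = x ∨ u.2 = x) → (v.1 = x ∨ v.2 = x) → u ∈ L → v ∈ L →
      ix L' u < ix L' v → ix L u < ix L v) : Eqv L L' := by
  intro x
  unfold loc
  refine eq_of_bf (hN.filter _) (hN'.filter _) ?_ ?_
  · intro e; simp [List.mem_filter, hm e]
  · intro u v huv
    obtain ⟨h1, h2, h3⟩ := (bf_filter _).1 huv
    obtain ⟨h4, h5⟩ := (bf_iff hN').1 h1
    have hu' : u ∈ L' := h1.subset (by simp)
    refine (bf_filter _).2 ⟨(bf_iff hN).2 ⟨(hm v).2 h4, ?_⟩, h2, h3⟩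
    exact h x u v (by simpa using h2) (by simpa using h3) ((hm u).2 hu') ((hm v).2 h4) h5

section main

variable {a c : Fin (n + 1)} {L L' : List (Fin (n + 1) × Fin (n + 1))}

/-- reduction of `Eqv` to the critical pairs -/
lemma eqv_crit (hac : a < c) (hV : Val a c L) (hV' : Val a c L') (hm : ∀ e, e ∈ L ↔ e ∈ L')
    (hA : Eqv (L.filter fun e => e.1 ≠ a) (L'.filter fun e => e.1 ≠ a))
    (hC : Eqv (L.filter fun e => e.2 ≠ c) (L'.filter fun e => e.2 ≠ c))
    (h1 : ∀ y, (a, y) ∈ L → (a, c) ∈ L → ix L' (a, c) < ix L' (a, y) → ix L (a, c) < ix L (a, y))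
    (h2 : ∀ y, (a, y) ∈ L → (a, c) ∈ L → ix L' (a, y) < ix L' (a, c) → ix L (a, y) < ix L (a, c))
    (h3 : ∀ y, a < y → y < c → (y, c) ∈ L → (a, c) ∈ L → ix L' (a, c) < ix L' (y, c) →
      ix L (a, c) < ix L (y, c))
    (h4 : ∀ y, a < y → y < c → (y, c) ∈ L → (a, c) ∈ L → ix L' (y, c) < ix L' (a, c) →
      ix L (y, c) < ix L (a, c))
    (h5 : ∀ x, a < x → x < c → (a, x) ∈ L → (x, c) ∈ L → ix L' (a, x) < ix L' (x, c) →
      ix L (a, x) < ix L (x, c))
    (h6 : ∀ x, a < x → x < c → (a, x) ∈ L → (x, c) ∈ L → ix L' (x, c) < ix L' (a, x) →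
      ix L (x, c) < ix L (a, x)) : Eqv L L' := by
  have hN := val_nodup hV
  have hN' := val_nodup hV'
  refine eqv_of_pairs hN hN' hm ?_
  intro x u v hu hv huL hvL huv
  by_cases hq1 : u.1 ≠ a ∧ v.1 ≠ a
  · exact (ordI hN hN' hm _ hA x hvL hu hv (by simpa using hq1.1) (by simpa using hq1.2)).2 huv
  by_cases hq2 : u.2 ≠ c ∧ v.2 ≠ c
  · exact (ordI hN hN' hm _ hC x hvL hu hv (by simpa using hq2.1) (by simpa using hq2.2)).2 huv
  obtain ⟨u1, u2⟩ := u
  obtain ⟨v1, v2⟩ := v
  obtain ⟨fu1, fu2, fu3, -⟩ := val_facts hV huL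
  obtain ⟨fv1, fv2, fv3, -⟩ := val_facts hV hvL
  simp only at hu hv fu1 fu2 fu3 fv1 fv2 fv3 hq1 hq2
  by_cases e1 : u1 = a
  · subst e1
    by_cases e2 : u2 = c
    · subst e2
      -- u = (a,c)
      by_cases e3 : v1 = u1
      · subst e3; exact h1 v2 hvL huL huv
      · have hv1 : u1 < v1 := lt_of_le_of_ne fv1 (Ne.symm e3)
        have e4 : v2 = u2 := by
          rcases hu with hu | hu <;> rcases hv with hv | hv
          · exact absurd (hv.trans hu.symm) e3
          · exfalso; rw [hu, ← hv] at hv1; exact absurd (hv1.trans fv2) (lt_irrefl _)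
          · exfalso; rw [hv, ← hu] at fv2; exact absurd (lt_of_lt_of_le fv2 fv3) (lt_irrefl _)
          · exact hv.trans hu.symm
        subst e4
        exact h3 v1 hv1 fv2 hvL huL huv
    · -- u = (a, u2), u2 ≠ c, so v2 = c
      have e4 : v2 = c := by
        by_contra hh; exact hq2 ⟨e2, hh⟩
      subst e4
      by_cases e3 : v1 = u1
      · subst e3; exact h2 u2 huL hvL huv
      · have hv1 : u1 < v1 := lt_of_le_of_ne fv1 (Ne.symm e3)
        have e5 : v1 = u2 := by
          rcases hu with hu | hu <;> rcases hv with hv | hv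
          · exact absurd (hv.trans hu.symm) e3
          · exfalso; rw [hv, hu] at hac; exact lt_irrefl _ hac
          · exact hv.trans hu.symm
          · exact absurd (hu.trans hv.symm) e2
        subst e5
        exact h5 v1 hv1 fv2 huL hvL huv
  · -- so v1 = a
    have e3 : v1 = a := by
      by_contra hh; exact hq1 ⟨e1, hh⟩
    subst e3
    have hu1 : v1 < u1 := lt_of_le_of_ne fu1 (Ne.symm e1)
    by_cases e2 : v2 = c
    · subst e2
      have e4 : u2 = v2 := by
        rcases hv with hv | hv <;> rcases hu with hu | hu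
        · exact absurd (hu.trans hv.symm) e1
        · exfalso; rw [hv, ← hu] at hu1; exact absurd (hu1.trans fu2) (lt_irrefl _)
        · exfalso; rw [hu, ← hv] at fu2; exact absurd (lt_of_lt_of_le fu2 fu3) (lt_irrefl _)
        · exact hu.trans hv.symm
      subst e4
      exact h4 u1 hu1 fu2 huL hvL huv
    · have e4 : u2 = c := by
        by_contra hh; exact hq2 ⟨hh, e2⟩
      subst e4
      have e5 : u1 = v2 := by
        rcases hv with hv | hv <;> rcases hu with hu | hu
        · exact absurd (hu.trans hv.symm) e1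
        · exfalso; rw [hu, hv] at hac; exact lt_irrefl _ hac
        · exact hu.trans hv.symm
        · exact absurd (hv.trans hu.symm) e2
      subst e5
      exact h6 u1 hu1 fu2 hvL huL huv

lemma eqv_absent (hac : a < c) (hV : Val a c L) (hV' : Val a c L') (hm : ∀ e, e ∈ L ↔ e ∈ L')
    (hA : Eqv (L.filter fun e => e.1 ≠ a) (L'.filter fun e => e.1 ≠ a))
    (hC : Eqv (L.filter fun e => e.2 ≠ c) (L'.filter fun e => e.2 ≠ c))
    (h0 : (a, c) ∉ L) : Eqv L L' := by
  have key : ∀ x, a < x → x < c → (a, x) ∈ L → (x, c) ∈ L → False := by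
    intro x hx1 hx2 h1 h2
    obtain ⟨-, -, -, f1, -, -⟩ := val_facts hV h1
    obtain ⟨-, -, -, -, g1, -⟩ := val_facts hV h2
    have k1 := f1 c hx2 le_rfl
    have k2 := g1 a le_rfl hx1
    have k3 := idx_lt_of_notMem h1 h0
    have k4 := idx_lt_of_notMem h2 h0
    have k5 : ix L (a, x) ≠ ix L (x, c) := idx_ne h1 (fun h => by
      simp only [Prod.mk.injEq] at h; exact absurd h.1 (ne_of_lt hx1))
    simp only at k1 k2
    omega
  refine eqv_crit hac hV hV' hm hA hC ?_ ?_ ?_ ?_ ?_ ?_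
  · intro y _ h; exact absurd h h0
  · intro y _ h; exact absurd h h0
  · intro y _ _ _ h; exact absurd h h0
  · intro y _ _ _ h; exact absurd h h0
  · intro x hx1 hx2 h1 h2; exact (key x hx1 hx2 h1 h2).elim
  · intro x hx1 hx2 h1 h2; exact (key x hx1 hx2 h1 h2).elim

lemma eqv_same (hac : a < c) (hV : Val a c L) (hV' : Val a c L') (hm : ∀ e, e ∈ L ↔ e ∈ L')
    (hA : Eqv (L.filter fun e => e.1 ≠ a) (L'.filter fun e => e.1 ≠ a))
    (hC : Eqv (L.filter fun e => e.2 ≠ c) (L'.filter fun e => e.2 ≠ c))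
    (h0 : (a, c) ∈ L)
    (hT : ∀ x, ix L (a, x) < ix L (a, c) ↔ ix L' (a, x) < ix L' (a, c)) : Eqv L L' := by
  have h0' := (hm _).1 h0
  obtain ⟨-, -, -, -, -, f⟩ := val_facts hV h0
  obtain ⟨-, -, -, -, -, f'⟩ := val_facts hV' h0'
  simp only at f f'
  refine eqv_crit hac hV hV' hm hA hC ?_ ?_ ?_ ?_ ?_ ?_
  · intro y hy _ h
    have h1 : ¬ ix L (a, y) < ix L (a, c) := fun hh => by have := (hT y).1 hh; omega
    have h2 : ix L (a, y) ≠ ix L (a, c) := idx_ne hy (fun he => by rw [he] at h; omega)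
    omega
  · intro y _ _ h; exact (hT y).2 h
  · intro y hy1 hy2 hy _ h
    have h1 : ¬ ix L' (y, c) < ix L' (a, c) := by omega
    have h2 := (f' y hy1 hy2).2 h1
    have h3 := (f y hy1 hy2).1 ((hT y).2 h2)
    have h4 : ix L (y, c) ≠ ix L (a, c) := idx_ne hy (fun he => by rw [he] at h; omega)
    omega
  · intro y hy1 hy2 hy _ h
    by_contra hh
    have h2 := (hT y).1 ((f y hy1 hy2).2 hh)
    exact (f' y hy1 hy2).1 h2 h
  · intro x hx1 hx2 h1 h2 h
    have hTx : ix L' (a, x) < ix L' (a, c) := by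
      by_contra hh
      have h3 : ix L' (x, c) < ix L' (a, c) := by
        by_contra h4; exact hh ((f' x hx1 hx2).2 h4)
      omega
    have h3 := (hT x).2 hTx
    have h4 := (f x hx1 hx2).1 h3
    omega
  · intro x hx1 hx2 h1 h2 h
    have hTx : ¬ ix L' (a, x) < ix L' (a, c) := by
      intro hh
      have h3 := (f' x hx1 hx2).1 hh
      omega
    have h3 : ¬ ix L (a, x) < ix L (a, c) := fun hh => hTx ((hT x).1 hh)
    have h4 : ix L (x, c) < ix L (a, c) := by
      by_contra h5; exact h3 ((f x hx1 hx2).2 h5)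
    omega

lemma step (q : ℤ) (hq : 0 < q) (hV : Val a c L) (hV' : Val a c L')
    (hm : ∀ e, e ∈ L ↔ e ∈ L')
    (hA : Eqv (L.filter fun e => e.1 ≠ a) (L'.filter fun e => e.1 ≠ a))
    (hC : Eqv (L.filter fun e => e.2 ≠ c) (L'.filter fun e => e.2 ≠ c))
    (h0 : (a, c) ∈ L) (x : Fin (n + 1)) (hx1 : ix L' (a, x) < ix L' (a, c))
    (hx2 : ¬ ix L (a, x) < ix L (a, c))
    (hmin : ∀ y, ix L' (a, y) < ix L' (a, c) → ¬ ix L (a, y) < ix L (a, c) →
      ix L (a, x) ≤ ix L (a, y)) :
    ∃ L2, Val a c L2 ∧ (∀ e, e ∈ L2 ↔ e ∈ L) ∧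
      Eqv (L2.filter fun e => e.1 ≠ a) (L.filter fun e => e.1 ≠ a) ∧
      Eqv (L2.filter fun e => e.2 ≠ c) (L.filter fun e => e.2 ≠ c) ∧
      (∀ y, ix L2 (a, y) < ix L2 (a, c) ↔ y = x ∨ ix L (a, y) < ix L (a, c)) ∧
      L2.foldl (vstep q) (Pi.single a 1) c < L.foldl (vstep q) (Pi.single a 1) c := by
  have hN := val_nodup hV
  have hN' := val_nodup hV'
  have h0' := (hm _).1 h0
  have hxL : (a, x) ∈ L := (hm _).2 (mem_of_idx_lt hx1)
  have hxL' := (hm _).1 hxL
  obtain ⟨-, hax, hxc', -⟩ := val_facts hV hxL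
  simp only at hax hxc'
  have hxne : x ≠ c := fun h => by rw [h] at hx1; exact lt_irrefl _ hx1
  have hxc : x < c := lt_of_le_of_ne hxc' hxne
  have hac : a < c := hax.trans hxc
  obtain ⟨-, -, -, -, -, f⟩ := val_facts hV h0
  obtain ⟨-, -, -, -, -, f'⟩ := val_facts hV' h0'
  simp only at f f'
  have h3 : ix L (x, c) < ix L (a, c) := by
    by_contra h; exact hx2 ((f x hax hxc).2 h)
  have hxcL : (x, c) ∈ L := mem_of_idx_lt h3
  have hxcL' := (hm _).1 hxcL
  have h4 : ix L (a, c) < ix L (a, x) := by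
    have : ix L (a, x) ≠ ix L (a, c) := idx_ne hxL (fun h => hxne (by simpa using h))
    omega
  have h5 : ix L' (a, c) < ix L' (x, c) := by
    have h := (f' x hax hxc).1 hx1
    have : ix L' (x, c) ≠ ix L' (a, c) := idx_ne hxcL' (fun h => (ne_of_gt hax) (by simpa using h))
    omega
  -- wire a
  have wa : ∀ y, (a, y) ∈ L → ix L (a, c) < ix L (a, y) → ¬ ix L (a, y) < ix L (a, x) := by
    intro y hy h6 h7
    have hyc : y ≠ c := fun h => by rw [h] at h6; exact lt_irrefl _ h6
    have h8 := (ordI (u := (a, y)) (v := (a, x)) hN hN' hm _ hC a hxL (Or.inl rfl) (Or.inl rfl)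
      (by simpa using hyc) (by simpa using hxne)).1 h7
    have := hmin y (by omega) (by omega)
    omega
  -- wire c
  have wc : ∀ y, (y, c) ∈ L → ix L (x, c) < ix L (y, c) → ¬ ix L (y, c) < ix L (a, c) := by
    intro y hy h6 h7
    obtain ⟨hay', hyc, -, -⟩ := val_facts hV hy
    simp only at hay' hyc
    have hya : y ≠ a := fun h => by rw [h] at h7; exact lt_irrefl _ h7
    have hay : a < y := lt_of_le_of_ne hay' (Ne.symm hya)
    have hyx : y ≠ x := fun h => by rw [h] at h6; exact lt_irrefl _ h6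
    have h8 := (ordI (u := (x, c)) (v := (y, c)) hN hN' hm _ hA c hy (Or.inr rfl) (Or.inr rfl)
      (by simpa using (ne_of_gt hax)) (by simpa using hya)).1 h6
    have h9 : ix L' (a, y) < ix L' (a, c) := (f' y hay hyc).2 (by omega)
    have hayL : (a, y) ∈ L := (hm _).2 (mem_of_idx_lt h9)
    have hayL' := (hm _).1 hayL
    have h10 : ¬ ix L (a, y) < ix L (a, c) := fun h => (f y hay hyc).1 h h7
    have h11 : ix L (a, y) ≠ ix L (a, c) :=
      idx_ne hayL (fun h => (ne_of_lt hyc) (by simpa using h))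
    have h12 := wa y hayL (by omega)
    have h13 : ix L (a, y) ≠ ix L (a, x) := idx_ne hayL (fun h => hyx (by simpa using h))
    have h14 : ix L (a, x) < ix L (a, y) := by omega
    have h15 := (ordI (u := (a, x)) (v := (a, y)) hN hN' hm _ hC a hayL (Or.inl rfl) (Or.inl rfl)
      (by simpa using hxne) (by simpa using (ne_of_lt hyc))).1 h14
    rcases lt_or_gt_of_ne hyx with hlt | hlt
    · -- y < x
      obtain ⟨-, -, -, -, -, g1⟩ := val_facts hV' hxL'
      obtain ⟨-, -, -, -, -, g2⟩ := val_facts hV' ((hm _).1 hy)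
      have k1 := g1 y hay hlt
      have k2 := g2 x hlt hxc
      simp only at k1 k2
      omega
    · obtain ⟨-, -, -, -, -, g1⟩ := val_facts hV hxcL
      obtain ⟨-, -, -, -, -, g2⟩ := val_facts hV hayL
      have k1 := g1 y hlt hyc
      have k2 := g2 x hax hlt
      simp only at k1 k2
      omega
  -- wire x
  have wx : ∀ w ∈ L, (w.1 = x ∨ w.2 = x) → ix L (x, c) < ix L w → ¬ ix L w < ix L (a, x) := by
    intro w hw hwx h6 h7
    have n1 : w.1 ≠ a := by
      intro h
      rcases hwx with h' | h'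
      · exact (ne_of_lt hax) (h.symm.trans h')
      · have : w = (a, x) := Prod.ext h h'
        rw [this] at h7; exact lt_irrefl _ h7
    have n2 : w.2 ≠ c := by
      intro h
      rcases hwx with h' | h'
      · have : w = (x, c) := Prod.ext h' h
        rw [this] at h6; exact lt_irrefl _ h6
      · exact hxne (h'.symm.trans h)
    have h8 := (ordI (u := (x, c)) (v := w) hN hN' hm _ hA x hw (Or.inl rfl) hwx
      (by simpa using (ne_of_gt hax)) (by simpa using n1)).1 h6
    have h9 := (ordI (u := w) (v := (a, x)) hN hN' hm _ hC x hxL hwx (Or.inr rfl)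
      (by simpa using n2) (by simpa using hxne)).1 h7
    omega
  -- splitting
  obtain ⟨A, R1, hL1⟩ := List.append_of_mem hxcL
  have hA1 : (x, c) ∉ A := by
    intro h; rw [hL1] at hN; exact (List.disjoint_of_nodup_append hN) h (by simp)
  have hm1 : (a, c) ∈ R1 := by
    have h6 : (a, c) ∉ A := by
      intro h
      have := (idx_split (S := R1) (u := (a, c)) hA1).2 h
      rw [← hL1] at this; omega
    have h7 := h0
    rw [hL1] at h7
    simp only [List.mem_append, List.mem_cons, h6, false_or, Prod.mk.injEq, (ne_of_lt hax),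
      false_and] at h7
    exact h7
  obtain ⟨B, R2, hR1⟩ := List.append_of_mem hm1
  have hL2 : L = (A ++ (x, c) :: B) ++ (a, c) :: R2 := by rw [hL1, hR1]; simp
  have hB1 : (a, c) ∉ A ++ (x, c) :: B := by
    intro h; rw [hL2] at hN; exact (List.disjoint_of_nodup_append hN) h (by simp)
  have hm2 : (a, x) ∈ R2 := by
    have h6 : (a, x) ∉ A ++ (x, c) :: B := by
      intro h
      have := (idx_split (S := R2) (u := (a, x)) hB1).2 h
      rw [← hL2] at this; omega
    have h7 := hxL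
    rw [hL2, List.mem_append] at h7
    rcases h7 with h7 | h7
    · exact absurd h7 h6
    · simpa [hxne] using h7
  obtain ⟨C, D, hR2⟩ := List.append_of_mem hm2
  have hL3 : L = (A ++ (x, c) :: B ++ (a, c) :: C) ++ (a, x) :: D := by rw [hL2, hR2]; simp
  have hC1 : (a, x) ∉ A ++ (x, c) :: B ++ (a, c) :: C := by
    intro h; rw [hL3] at hN; exact (List.disjoint_of_nodup_append hN) h (by simp)
  have hBf : ∀ g ∈ B, ix L (x, c) < ix L g ∧ ix L g < ix L (a, c) ∧ g ∈ L := by
    intro g hg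
    have hgL : g ∈ L := by rw [hL2]; simp [hg]
    have k1 : ix L g < ix L (a, c) := by
      rw [hL2]; exact (idx_split hB1).2 (by simp [hg])
    have k2 : ¬ ix L g < ix L (x, c) := by
      intro h
      rw [hL1] at h
      have h8 := (idx_split hA1).1 h
      rw [hL1] at hN
      exact (List.disjoint_of_nodup_append hN) h8 (by rw [hR1]; simp [hg])
    have k3 : g ≠ (x, c) := by
      intro h
      rw [hL1] at hN
      have := (List.nodup_append.1 hN).2.1
      exact (List.nodup_cons.1 this).1 (by rw [hR1, ← h]; simp [hg])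
    have k4 := idx_ne hgL k3
    exact ⟨by omega, k1, hgL⟩
  have hCf : ∀ g ∈ C, ix L (a, c) < ix L g ∧ ix L g < ix L (a, x) ∧ g ∈ L := by
    intro g hg
    have hgL : g ∈ L := by rw [hL3]; simp [hg]
    have k1 : ix L g < ix L (a, x) := by
      rw [hL3]; exact (idx_split hC1).2 (by simp [hg])
    have k2 : ¬ ix L g < ix L (a, c) := by
      intro h
      rw [hL2] at h
      have h8 := (idx_split hB1).1 h
      rw [hL2] at hN
      exact (List.disjoint_of_nodup_append hN) h8 (by rw [hR2]; simp [hg])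
    have k3 : g ≠ (a, c) := by
      intro h
      rw [hL2] at hN
      have := (List.nodup_append.1 hN).2.1
      exact (List.nodup_cons.1 this).1 (by rw [hR2, ← h]; simp [hg])
    have k4 := idx_ne hgL k3
    exact ⟨by omega, k1, hgL⟩
  have hdB : ∀ g ∈ B, Dj (x, c) g := by
    intro g hg
    obtain ⟨k1, k2, k3⟩ := hBf g hg
    obtain ⟨l1, l2, l3, -⟩ := val_facts hV k3
    refine ⟨fun h => ?_, fun h => ?_, fun h => ?_, fun h => ?_⟩
    · exact wx g k3 (Or.inl h.symm) k1 (by omega)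
    · exact wx g k3 (Or.inr h.symm) k1 (by omega)
    · simp only at h; rw [← h] at l2; exact absurd l2 (not_lt.2 l3)
    · simp only at h
      have hg' : g = (g.1, c) := Prod.ext rfl h.symm
      rw [hg'] at k1 k2 k3
      exact wc g.1 k3 k1 k2
  have hdC : ∀ g ∈ C, Dj (a, x) g := by
    intro g hg
    obtain ⟨k1, k2, k3⟩ := hCf g hg
    obtain ⟨l1, l2, l3, -⟩ := val_facts hV k3
    refine ⟨fun h => ?_, fun h => ?_, fun h => ?_, fun h => ?_⟩
    · simp only at h
      have hg' : g = (a, g.2) := Prod.ext h.symm rfl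
      rw [hg'] at k1 k2 k3
      exact wa g.2 k3 k1 k2
    · simp only at h; rw [← h] at l2; exact absurd l2 (not_lt.2 l1)
    · exact wx g k3 (Or.inl h.symm) (by omega) k2
    · exact wx g k3 (Or.inr h.symm) (by omega) k2
  -- moves
  obtain ⟨m1, m2, m3⟩ := move q (Pi.single a 1) a c (x, c) B A ((a, c) :: C ++ (a, x) :: D) hdB
  obtain ⟨m4, m5, m6⟩ := move q (Pi.single a 1) a c (a, x) C (A ++ B ++ [(x, c), (a, c)]) D hdC
  have e1 : A ++ (x, c) :: B ++ ((a, c) :: C ++ (a, x) :: D) = L := by rw [hL3]; simp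
  have e2 : A ++ B ++ [(x, c), (a, c)] ++ C ++ (a, x) :: D =
    A ++ B ++ (x, c) :: ((a, c) :: C ++ (a, x) :: D) := by simp
  have e3 : A ++ B ++ [(x, c), (a, c)] ++ (a, x) :: C ++ D =
    (A ++ B) ++ (x, c) :: (a, c) :: (a, x) :: (C ++ D) := by simp
  rw [e1] at m1 m2 m3
  rw [e2, e3] at m4 m5 m6
  have hV1 : Val a c ((A ++ B) ++ (x, c) :: (a, c) :: (a, x) :: (C ++ D)) := m4.2 (m1.1 hV)
  have hE1 : Eqv ((A ++ B) ++ (x, c) :: (a, c) :: (a, x) :: (C ++ D)) L :=
    Eqv.trans' m6 (Eqv.symm' m3)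
  have hF : ∀ p : Fin (n + 1) × Fin (n + 1) → Bool,
      Eqv (((A ++ B) ++ (x, c) :: (a, c) :: (a, x) :: (C ++ D)).filter p) (L.filter p) := by
    intro p y
    have := hE1 y
    unfold loc at this ⊢
    rw [List.filter_comm, this, List.filter_comm]
  have hV2 := val_flip a x c hax hxc (A ++ B) (C ++ D) hV1
  refine ⟨_, hV2, ?_, ?_, ?_, ?_, ?_⟩
  · intro e; rw [hL3]
    simp only [List.mem_append, List.mem_cons]
    tauto
  · have : ((A ++ B) ++ (a, x) :: (a, c) :: (x, c) :: (C ++ D)).filter (fun e => e.1 ≠ a) =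
        ((A ++ B) ++ (x, c) :: (a, c) :: (a, x) :: (C ++ D)).filter (fun e => e.1 ≠ a) := by
      simp [List.filter_append, List.filter_cons]
    rw [this]; exact hF _
  · have : ((A ++ B) ++ (a, x) :: (a, c) :: (x, c) :: (C ++ D)).filter (fun e => e.2 ≠ c) =
        ((A ++ B) ++ (x, c) :: (a, c) :: (a, x) :: (C ++ D)).filter (fun e => e.2 ≠ c) := by
      simp [List.filter_append, List.filter_cons]
    rw [this]; exact hF _
  · intro y
    have hn : (a, c) ∉ (A ++ B) ++ [(a, x)] := by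
      intro h
      simp only [List.mem_append, List.mem_singleton, Prod.mk.injEq, true_and] at h
      rcases h with (h | h) | h
      · exact hB1 (by simp [h])
      · exact hB1 (by simp [h])
      · exact hxne h.symm
    have e4 : (A ++ B) ++ (a, x) :: (a, c) :: (x, c) :: (C ++ D) =
      ((A ++ B) ++ [(a, x)]) ++ (a, c) :: ((x, c) :: (C ++ D)) := by simp
    rw [e4, idx_split hn, hL2, idx_split hB1]
    simp only [List.mem_append, List.mem_singleton, List.mem_cons, Prod.mk.injEq, true_and]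
    have : a ≠ x := ne_of_lt hax
    tauto
  · have h6 := t_E1 n q a x c (A ++ B) (C ++ D) hq hax hxc hV2
    rw [m2, ← m5]
    exact h6

theorem core (q : ℤ) (hq : 0 < q) (hac : a < c) (hV' : Val a c L') : ∀ (k : ℕ)
    (L : List (Fin (n + 1) × Fin (n + 1))), Val a c L → (∀ e, e ∈ L ↔ e ∈ L') →
    Eqv (L.filter fun e => e.1 ≠ a) (L'.filter fun e => e.1 ≠ a) →
    Eqv (L.filter fun e => e.2 ≠ c) (L'.filter fun e => e.2 ≠ c) →
    (a, c) ∈ L → (∀ x, ix L (a, x) < ix L (a, c) → ix L' (a, x) < ix L' (a, c)) →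
    (Finset.univ.filter (fun x => ix L' (a, x) < ix L' (a, c) ∧
      ¬ ix L (a, x) < ix L (a, c))).card = k →
    Eqv L L' ∨ L'.foldl (vstep q) (Pi.single a 1) c < L.foldl (vstep q) (Pi.single a 1) c := by
  intro k
  induction k with
  | zero =>
    intro L hV hm hA hC h0 hT hk
    left
    rw [Finset.card_eq_zero] at hk
    refine eqv_same hac hV hV' hm hA hC h0 (fun x => ⟨hT x, fun h => ?_⟩)
    by_contra hh
    have : x ∈ (∅ : Finset (Fin (n + 1))) := by
      rw [← hk]; simp only [Finset.mem_filter, Finset.mem_univ, true_and]; exact ⟨h, hh⟩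
    simp at this
  | succ k ih =>
    intro L hV hm hA hC h0 hT hk
    right
    set X := Finset.univ.filter (fun x => ix L' (a, x) < ix L' (a, c) ∧
      ¬ ix L (a, x) < ix L (a, c)) with hX
    have hne : X.Nonempty := by rw [← Finset.card_pos]; omega
    obtain ⟨x, hx, hmin⟩ := Finset.exists_min_image X (fun y => ix L (a, y)) hne
    have hx' := (Finset.mem_filter.1 hx).2
    obtain ⟨L2, s1, s2, s3, s4, s5, s6⟩ := step q hq hV hV' hm hA hC h0 x hx'.1 hx'.2
      (fun y h1 h2 => hmin y (Finset.mem_filter.2 ⟨Finset.mem_univ _, h1, h2⟩))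
    have hk2 : (Finset.univ.filter (fun y => ix L' (a, y) < ix L' (a, c) ∧
      ¬ ix L2 (a, y) < ix L2 (a, c))).card = k := by
      have : (Finset.univ.filter (fun y => ix L' (a, y) < ix L' (a, c) ∧
        ¬ ix L2 (a, y) < ix L2 (a, c))) = X.erase x := by
        ext y
        simp only [Finset.mem_filter, Finset.mem_univ, true_and, Finset.mem_erase, hX, s5 y]
        tauto
      rw [this, Finset.card_erase_of_mem hx, hk]; rfl
    rcases ih L2 s1 (fun e => (s2 e).trans (hm e)) (Eqv.trans' s3 hA) (Eqv.trans' s4 hC)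
      ((s2 _).2 h0) (fun y hy => by
        rcases (s5 y).1 hy with h | h
        · rw [h]; exact hx'.1
        · exact hT y h) hk2 with h | h
    · rw [← eqv_foldl q L2 L' _ h]; exact s6
    · exact h.trans s6

end main

theorem t_E2 : Pool.Agent.X189.BS.S_E2 := by
  intro n q a c L L' hq hac hV hV' hm hA hC hval
  by_cases h0 : (a, c) ∈ L
  · have hN := val_nodup hV
    have hN' := val_nodup hV'
    by_cases hT : ∀ x, ix L (a, x) < ix L (a, c) → ix L' (a, x) < ix L' (a, c)
    · rcases core q hq hac hV' _ L hV hm hA hC h0 hT rfl with h | h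
      · exact h
      · rw [hval] at h; exact absurd h (lt_irrefl _)
    · have hT' : ∀ x, ix L' (a, x) < ix L' (a, c) → ix L (a, x) < ix L (a, c) := by
        intro y hy
        by_contra hy2
        push Not at hT
        obtain ⟨x, hx1, hx2⟩ := hT
        have hyL : (a, y) ∈ L := (hm _).2 (mem_of_idx_lt hy)
        have hyc : y ≠ c := fun h => by rw [h] at hy; exact lt_irrefl _ hy
        have hxc : x ≠ c := fun h => by rw [h] at hx1; exact lt_irrefl _ hx1
        have := (ordI (u := (a, x)) (v := (a, y)) hN hN' hm _ hC a hyL (Or.inl rfl) (Or.inl rfl)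
          (by simpa using hxc) (by simpa using hyc)).1 (by omega)
        omega
      rcases core q hq hac hV _ L' hV' (fun e => (hm e).symm) (Eqv.symm' hA) (Eqv.symm' hC)
        ((hm _).1 h0) hT' rfl with h | h
      · exact Eqv.symm' h
      · rw [hval] at h; exact absurd h (lt_irrefl _)
  · exact eqv_absent hac hV hV' hm hA hC h0

end Pool.Agent.X263.BS
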