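import Pool.Agent.X263.BS.E1

set_option linter.unusedSimpArgs false

/-! Tools for part E2 of the joint project BS (MP_4f027a_co). -/

namespace Pool.Agent.X263.BS

open Equiv Pool.Agent.X189.BS

variable {n : ℕ}

/-- The condition at one crossing. -/
def Stp (a c : Fin (n + 1)) (P : List (Fin (n + 1) × Fin (n + 1)))
    (e : Fin (n + 1) × Fin (n + 1)) : Prop :=
  a ≤ e.1 ∧ e.1 < e.2 ∧ e.2 ≤ c ∧ e ∉ P ∧
    (∀ z, e.2 < z → z ≤ c → ((e.2, z) ∈ P ↔ (e.1, z) ∈ P)) ∧
    (∀ z, a ≤ z → z < e.1 → ((z, e.1) ∈ P ↔ (z, e.2) ∈ P)) ∧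
    (∀ z, e.1 < z → z < e.2 → ((e.1, z) ∈ P ↔ (z, e.2) ∉ P))

def VF (a c : Fin (n + 1)) : List (Fin (n + 1) × Fin (n + 1)) →
    List (Fin (n + 1) × Fin (n + 1)) → Prop
  | _, [] => True
  | P, e :: S => Stp a c P e ∧ VF a c (P ++ [e]) S

lemma val_snoc (a c : Fin (n + 1)) (P : List (Fin (n + 1) × Fin (n + 1)))
    (e : Fin (n + 1) × Fin (n + 1)) : Val a c (P ++ [e]) ↔ Val a c P ∧ Stp a c P e := by
  constructor
  · intro h
    refine ⟨fun P' f S' hP => h P' f (S' ++ [e]) (by rw [hP]; simp), h P e [] rfl⟩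
  · rintro ⟨h1, h2⟩ P' f S' hP
    rcases List.eq_nil_or_concat S' with h | ⟨S'', g, h⟩
    · subst h
      obtain ⟨h3, h4⟩ := List.append_inj' hP rfl
      subst h3
      simp only [List.cons.injEq, and_true] at h4
      subst h4
      exact h2
    · subst h
      have hP2 : P ++ [e] = (P' ++ f :: S'') ++ [g] := by rw [hP]; simp
      obtain ⟨h3, h4⟩ := List.append_inj' hP2 rfl
      exact h1 P' f S'' h3

lemma val_iff (a c : Fin (n + 1)) : ∀ (S P : List (Fin (n + 1) × Fin (n + 1))),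
    Val a c (P ++ S) ↔ Val a c P ∧ VF a c P S := by
  intro S
  induction S with
  | nil => intro P; simp [VF]
  | cons e S ih =>
    intro P
    have := ih (P ++ [e])
    rw [show P ++ e :: S = (P ++ [e]) ++ S by simp, this, val_snoc, VF, and_assoc]

lemma stp_congr (a c : Fin (n + 1)) (P Q : List (Fin (n + 1) × Fin (n + 1)))
    (h : ∀ x, x ∈ P ↔ x ∈ Q) (e : Fin (n + 1) × Fin (n + 1)) : Stp a c P e ↔ Stp a c Q e := by
  unfold Stp; simp only [h]

lemma vf_congr (a c : Fin (n + 1)) : ∀ (S P Q : List (Fin (n + 1) × Fin (n + 1)))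
    (_ : ∀ x, x ∈ P ↔ x ∈ Q), VF a c P S ↔ VF a c Q S := by
  intro S
  induction S with
  | nil => intro P Q _; simp [VF]
  | cons e S ih =>
    intro P Q h
    rw [VF, VF, stp_congr a c P Q h e, ih (P ++ [e]) (Q ++ [e]) (by
      intro x; simp [h x])]

/-- no common wire -/
def Dj (e f : Fin (n + 1) × Fin (n + 1)) : Prop :=
  e.1 ≠ f.1 ∧ e.1 ≠ f.2 ∧ e.2 ≠ f.1 ∧ e.2 ≠ f.2

lemma Dj.symm {e f : Fin (n + 1) × Fin (n + 1)} (h : Dj e f) : Dj f e :=
  ⟨h.1.symm, h.2.2.1.symm, h.2.1.symm, h.2.2.2.symm⟩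

lemma stp_dj (a c : Fin (n + 1)) (P : List (Fin (n + 1) × Fin (n + 1)))
    (e f : Fin (n + 1) × Fin (n + 1)) (h : Dj e f) : Stp a c (P ++ [f]) e ↔ Stp a c P e := by
  obtain ⟨e1, e2⟩ := e
  obtain ⟨f1, f2⟩ := f
  obtain ⟨h1, h2, h3, h4⟩ := h
  simp only at h1 h2 h3 h4
  unfold Stp
  simp [List.mem_append, Prod.ext_iff, h1, h2, h3, h4]

lemma val_swap (a c : Fin (n + 1)) (P S : List (Fin (n + 1) × Fin (n + 1)))
    (e f : Fin (n + 1) × Fin (n + 1)) (h : Dj e f) (hV : Val a c (P ++ e :: f :: S)) :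
    Val a c (P ++ f :: e :: S) := by
  rw [val_iff] at hV ⊢
  simp only [VF] at hV ⊢
  obtain ⟨h1, h2, h3, h4⟩ := hV
  refine ⟨h1, (stp_dj a c P f e h.symm).1 h3, (stp_dj a c P e f h).2 h2, ?_⟩
  refine (vf_congr a c S _ _ ?_).1 h4
  intro x; simp [or_comm, or_left_comm, or_assoc]

lemma vstep_swap (q : ℤ) (X : Fin (n + 1) → ℤ) (e f : Fin (n + 1) × Fin (n + 1)) (h : Dj e f) :
    vstep q (vstep q X e) f = vstep q (vstep q X f) e := by
  obtain ⟨e1, e2⟩ := e
  obtain ⟨f1, f2⟩ := f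
  obtain ⟨h1, h2, h3, h4⟩ := h
  simp only at h1 h2 h3 h4
  funext z
  by_cases z1 : z = e1
  · subst z1; simp [vstep, h1, h2, h3, h4, h1.symm, h2.symm, h3.symm, h4.symm]; ring
  · by_cases z2 : z = e2
    · subst z2; simp [vstep, h1, h2, h3, h4, h1.symm, h2.symm, h3.symm, h4.symm]; ring
    · by_cases z3 : z = f1
      · subst z3; simp [vstep, z1, z2, h1, h2, h3, h4, h1.symm, h2.symm, h3.symm, h4.symm]; ring
      · by_cases z4 : z = f2
        · subst z4; simp [vstep, z1, z2, h1, h2, h3, h4, h1.symm, h2.symm, h3.symm, h4.symm]; ring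
        · simp [vstep, z1, z2, z3, z4]

lemma foldl_swap (q : ℤ) (X : Fin (n + 1) → ℤ) (P S : List (Fin (n + 1) × Fin (n + 1)))
    (e f : Fin (n + 1) × Fin (n + 1)) (h : Dj e f) :
    (P ++ e :: f :: S).foldl (vstep q) X = (P ++ f :: e :: S).foldl (vstep q) X := by
  simp only [List.foldl_append, List.foldl_cons]
  rw [vstep_swap q _ e f h]

lemma loc_swap (P S : List (Fin (n + 1) × Fin (n + 1)))
    (e f : Fin (n + 1) × Fin (n + 1)) (h : Dj e f) :
    Eqv (P ++ e :: f :: S) (P ++ f :: e :: S) := by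
  intro x
  unfold loc
  rw [List.filter_append, List.filter_append]
  congr 1
  obtain ⟨h1, h2, h3, h4⟩ := h
  by_cases h5 : e.1 = x ∨ e.2 = x
  · have h6 : ¬ (f.1 = x ∨ f.2 = x) := by
      rintro (h6 | h6) <;> rcases h5 with h5 | h5
      · exact h1 (h5.trans h6.symm)
      · exact h3 (h5.trans h6.symm)
      · exact h2 (h5.trans h6.symm)
      · exact h4 (h5.trans h6.symm)
    simp [List.filter_cons, h5, h6]
  · simp [List.filter_cons, h5]

lemma Eqv.trans' {L L' L'' : List (Fin (n + 1) × Fin (n + 1))} (h : Eqv L L') (h' : Eqv L' L'') :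
    Eqv L L'' := fun x => (h x).trans (h' x)

lemma Eqv.symm' {L L' : List (Fin (n + 1) × Fin (n + 1))} (h : Eqv L L') :
    Eqv L' L := fun x => (h x).symm

/-- moving a crossing to the right past a block -/
lemma move (q : ℤ) (X : Fin (n + 1) → ℤ) (a c : Fin (n + 1))
    (e : Fin (n + 1) × Fin (n + 1)) :
    ∀ (B P S : List (Fin (n + 1) × Fin (n + 1))), (∀ f ∈ B, Dj e f) →
      (Val a c (P ++ e :: B ++ S) ↔ Val a c (P ++ B ++ e :: S)) ∧
      (P ++ e :: B ++ S).foldl (vstep q) X = (P ++ B ++ e :: S).foldl (vstep q) X ∧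
      Eqv (P ++ e :: B ++ S) (P ++ B ++ e :: S) := by
  intro B
  induction B with
  | nil => intro P S _; simp [Eqv]
  | cons f B ih =>
    intro P S h
    have hf := h f (by simp)
    obtain ⟨i1, i2, i3⟩ := ih (P ++ [f]) S (fun g hg => h g (by simp [hg]))
    have e1 : P ++ e :: (f :: B) ++ S = P ++ e :: f :: (B ++ S) := by simp
    have e2 : (P ++ [f]) ++ e :: B ++ S = P ++ f :: e :: (B ++ S) := by simp
    have e3 : (P ++ [f]) ++ B ++ e :: S = P ++ (f :: B) ++ e :: S := by simp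
    rw [e2, e3] at i1 i2 i3
    rw [e1]
    refine ⟨⟨fun hh => i1.1 (val_swap a c _ _ e f hf hh), fun hh =>
      val_swap a c _ _ f e hf.symm (i1.2 hh)⟩, ?_, Eqv.trans' (loc_swap _ _ e f hf) i3⟩
    rw [foldl_swap q X P (B ++ S) e f hf, i2]

/-- the flip of a triangle -/
lemma val_flip (a b c : Fin (n + 1)) (hab : a < b) (hbc : b < c)
    (P S : List (Fin (n + 1) × Fin (n + 1)))
    (hV : Val a c (P ++ (b, c) :: (a, c) :: (a, b) :: S)) :
    Val a c (P ++ (a, b) :: (a, c) :: (b, c) :: S) := by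
  rw [val_iff] at hV ⊢
  simp only [VF] at hV ⊢
  have nab : a ≠ b := ne_of_lt hab
  have nbc : b ≠ c := ne_of_lt hbc
  have nac : a ≠ c := ne_of_lt (hab.trans hbc)
  obtain ⟨h1, h2, h3, h4, h5⟩ := hV
  unfold Stp at h2 h3 h4
  simp only [List.mem_append, List.mem_cons, List.not_mem_nil, or_false, Prod.mk.injEq,
    not_or] at h2 h3 h4
  obtain ⟨s1, s2, s3, s4, s5, s6, s7⟩ := h2
  obtain ⟨t1, t2, t3, t4, t5, t6, t7⟩ := h3
  obtain ⟨u1, u2, u3, u4, u5, u6, u7⟩ := h4
  refine ⟨h1, ?_, ?_, ?_, ?_⟩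
  · unfold Stp
    simp only
    refine ⟨le_rfl, hab, hbc.le, u4.1.1, ?_, ?_, ?_⟩
    · intro z hz1 hz2
      rcases lt_or_eq_of_le hz2 with h | h
      · have := u5 z hz1 hz2
        have nz : z ≠ c := ne_of_lt h
        simpa [nz, nab.symm, nab] using this
      · subst h
        exact ⟨fun h => absurd h s4, fun h => absurd h t4.1⟩
    · intro z hz1 hz2; exact absurd hz2 (not_lt.2 hz1)
    · intro z hz1 hz2
      have := u7 z hz1 hz2
      have nz : z ≠ c := ne_of_lt (hz2.trans hbc)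
      have nz2 : z ≠ a := ne_of_gt hz1
      simpa [nz, nz2, nab.symm, nab, nbc] using this
  · unfold Stp
    simp only [List.mem_append, List.mem_cons, List.not_mem_nil, or_false, Prod.mk.injEq, not_or]
    refine ⟨le_rfl, hab.trans hbc, le_rfl, ⟨t4.1, fun h => nbc h.2.symm⟩, ?_, ?_, ?_⟩
    · intro z hz1 hz2; exact absurd hz1 (not_lt.2 hz2)
    · intro z hz1 hz2; exact absurd hz2 (not_lt.2 hz1)
    · intro z hz1 hz2
      have nz2 : z ≠ a := ne_of_gt hz1
      by_cases hzb : z = b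
      · subst hzb
        simp [s4, nab.symm]
      · have := t7 z hz1 hz2
        simpa [hzb, nz2, nab, nab.symm, nbc, nbc.symm] using this
  · unfold Stp
    simp only [List.mem_append, List.mem_cons, List.not_mem_nil, or_false, Prod.mk.injEq, not_or]
    refine ⟨hab.le, hbc, le_rfl, ?_, ?_, ?_, ?_⟩
    · exact ⟨⟨s4, fun h => nab h.1.symm⟩, fun h => nab h.1.symm⟩
    · intro z hz1 hz2; exact absurd hz1 (not_lt.2 hz2)
    · intro z hz1 hz2
      by_cases hza : z = a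
      · subst hza; simp
      · have := s6 z hz1 hz2
        simpa [hza] using this
    · intro z hz1 hz2
      have := s7 z hz1 hz2
      have nz : z ≠ b := ne_of_gt hz1
      have nz2 : z ≠ a := ne_of_gt (hab.trans hz1)
      simpa [nz, nz2, nab.symm, nbc.symm] using this
  · refine (vf_congr a c S _ _ ?_).1 h5
    intro x; simp only [List.mem_append, List.mem_cons, List.not_mem_nil, or_false]; tauto

end Pool.Agent.X263.BS
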