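import Pool.Agent.X263.BS.E2a

set_option linter.unusedSimpArgs false

/-! Part E2 of the joint project BS (MP_4f027a_co): orders. -/

namespace Pool.Agent.X263.BS

open Equiv Pool.Agent.X189.BS List

section lists

variable {α : Type*} [DecidableEq α]

/-- the position of `u` in `L` -/
def ix (L : List α) (u : α) : ℕ := L.idxOf u

lemma bf_split {P S : List α} {u v : α} (hN : (P ++ v :: S).Nodup) :
    [u, v] <+ P ++ v :: S ↔ u ∈ P := by
  have hvP : v ∉ P := by
    intro h
    exact (List.disjoint_of_nodup_append hN) h (by simp)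
  have hvS : v ∉ S := by
    have := (List.nodup_append.1 hN).2.1
    exact (List.nodup_cons.1 this).1
  constructor
  · intro h
    rw [List.sublist_append_iff] at h
    obtain ⟨s1, s2, h1, h2, h3⟩ := h
    match s1, h1, h2 with
    | [], h1, _ =>
      simp only [List.nil_append] at h1
      subst h1
      rcases List.sublist_cons_iff.1 h3 with h | ⟨r, hr, h⟩
      · exact absurd (h.subset (by simp)) hvS
      · simp only [List.cons.injEq] at hr
        rw [← hr.2] at h
        exact absurd (h.subset (by simp)) hvS
    | [w], h1, h2 =>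
      simp only [List.cons_append, List.nil_append, List.cons.injEq] at h1
      rw [h1.1]; exact h2.subset (by simp)
    | w :: w' :: r, h1, h2 =>
      simp only [List.cons_append, List.cons.injEq] at h1
      exfalso; rw [h1.2.1] at hvP; exact hvP (h2.subset (by simp))
  · intro h
    have h1 : [u] <+ P := List.singleton_sublist.2 h
    have h2 : [v] <+ v :: S := List.singleton_sublist.2 (by simp)
    exact h1.append h2

lemma idx_split {P S : List α} {u v : α} (hv : v ∉ P) :
    ix (P ++ v :: S) u < ix (P ++ v :: S) v ↔ u ∈ P := by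
  unfold ix
  rw [List.idxOf_append_of_notMem hv]
  simp only [List.idxOf_cons_self, add_zero]
  by_cases hu : u ∈ P
  · rw [List.idxOf_append_of_mem hu]
    simp [hu, List.idxOf_lt_length_iff]
  · rw [List.idxOf_append_of_notMem hu]
    simp [hu]

lemma bf_iff {L : List α} {u v : α} (hN : L.Nodup) :
    [u, v] <+ L ↔ v ∈ L ∧ ix L u < ix L v := by
  by_cases hv : v ∈ L
  · obtain ⟨P, S, rfl⟩ := List.append_of_mem hv
    have hvP : v ∉ P := by
      intro h
      exact (List.disjoint_of_nodup_append hN) h (by simp)
    rw [bf_split hN, idx_split hvP]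
    simp
  · simp only [hv, false_and, iff_false]
    exact fun h => hv (h.subset (by simp))

lemma idx_ne {L : List α} {u v : α} (hu : u ∈ L) (h : u ≠ v) : ix L u ≠ ix L v := by
  unfold ix
  intro he
  exact h ((List.idxOf_inj hu).1 he)

lemma idx_lt_of_notMem {L : List α} {u v : α} (hu : u ∈ L) (hv : v ∉ L) :
    ix L u < ix L v := by
  unfold ix
  rw [List.idxOf_eq_length hv]
  exact List.idxOf_lt_length_iff.2 hu

lemma mem_of_idx_lt {L : List α} {u v : α} (h : ix L u < ix L v) : u ∈ L := by
  unfold ix at h
  by_contra hu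
  rw [List.idxOf_eq_length hu] at h
  exact absurd (List.idxOf_le_length (l := L) (a := v)) (not_le.2 h)

lemma bf_filter {L : List α} {u v : α} (p : α → Bool) :
    [u, v] <+ L.filter p ↔ [u, v] <+ L ∧ p u = true ∧ p v = true := by
  constructor
  · intro h
    have h1 : u ∈ L.filter p := h.subset (by simp)
    have h2 : v ∈ L.filter p := h.subset (by simp)
    exact ⟨h.trans List.filter_sublist, (List.mem_filter.1 h1).2, (List.mem_filter.1 h2).2⟩
  · rintro ⟨h, h1, h2⟩
    have := h.filter p
    simpa [List.filter_cons, h1, h2] using this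

lemma eq_of_bf {L L' : List α} (hN : L.Nodup) (hN' : L'.Nodup) (hm : ∀ e, e ∈ L ↔ e ∈ L')
    (h : ∀ u v, [u, v] <+ L' → [u, v] <+ L) : L = L' := by
  have hp : L.Perm L' := (List.perm_ext_iff_of_nodup hN hN').2 hm
  refine List.Perm.eq_of_pairwise (le := fun u v => [u, v] <+ L) ?_ ?_ ?_ hp
  · intro u v _ _ h1 h2
    by_contra hne
    have h3 := ((bf_iff hN).1 h1).2
    have h4 := ((bf_iff hN).1 h2).2
    omega
  · rw [List.pairwise_iff_forall_sublist]
    exact fun h => h
  · rw [List.pairwise_iff_forall_sublist]
    exact fun h' => h _ _ h'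

end lists

variable {n : ℕ}

lemma val_nodup {a c : Fin (n + 1)} {L : List (Fin (n + 1) × Fin (n + 1))} (h : Val a c L) :
    L.Nodup := by
  induction L using List.reverseRecOn with
  | nil => simp
  | append_singleton P e ih =>
    obtain ⟨h1, h2⟩ := (val_snoc a c P e).1 h
    have h3 := h2.2.2.2.1
    rw [List.nodup_append]
    refine ⟨ih h1, by simp, ?_⟩
    intro x hx y hy
    simp only [List.mem_singleton] at hy
    subst hy
    intro hxy; subst hxy; exact h3 hx

lemma val_facts {a c : Fin (n + 1)} {L : List (Fin (n + 1) × Fin (n + 1))} (h : Val a c L)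
    {e : Fin (n + 1) × Fin (n + 1)} (he : e ∈ L) : a ≤ e.1 ∧ e.1 < e.2 ∧ e.2 ≤ c ∧
    (∀ z, e.2 < z → z ≤ c → (ix L (e.2, z) < ix L e ↔ ix L (e.1, z) < ix L e)) ∧
    (∀ z, a ≤ z → z < e.1 → (ix L (z, e.1) < ix L e ↔ ix L (z, e.2) < ix L e)) ∧
    (∀ z, e.1 < z → z < e.2 → (ix L (e.1, z) < ix L e ↔ ¬ ix L (z, e.2) < ix L e)) := by
  obtain ⟨P, S, hL⟩ := List.append_of_mem he
  obtain ⟨h1, h2, h3, h4, h5, h6, h7⟩ := h P e S hL
  subst hL
  refine ⟨h1, h2, h3, ?_, ?_, ?_⟩
  · intro z hz1 hz2; rw [idx_split h4, idx_split h4]; exact h5 z hz1 hz2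
  · intro z hz1 hz2; rw [idx_split h4, idx_split h4]; exact h6 z hz1 hz2
  · intro z hz1 hz2; rw [idx_split h4, idx_split h4]; exact h7 z hz1 hz2

/-- Equivalent lists give the same vectors. -/
lemma eqv_foldl (q : ℤ) : ∀ (L L' : List (Fin (n + 1) × Fin (n + 1))) (X : Fin (n + 1) → ℤ),
    Eqv L L' → L.foldl (vstep q) X = L'.foldl (vstep q) X := by
  intro L
  induction L with
  | nil =>
    intro L' X h
    have : L' = [] := by
      match L', h with
      | [], _ => rfl
      | e :: L', h =>
        have := h e.1
        simp [loc] at this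
    rw [this]
  | cons e L ih =>
    intro L' X h
    have he1 : (loc e.1 L').head? = some e := by
      rw [← h e.1]; simp [loc]
    have hmem : e ∈ L' := by
      have : e ∈ loc e.1 L' := List.mem_of_mem_head? he1
      exact (List.mem_filter.1 this).1
    have key : ∀ (M : List (Fin (n + 1) × Fin (n + 1))), e ∈ M → ∃ A B, M = A ++ e :: B ∧
        e ∉ A := by
      intro M
      induction M with
      | nil => intro h; simp at h
      | cons f M ihM =>
        intro h
        by_cases hf : e = f
        · exact ⟨[], M, by simp [hf], by simp⟩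
        · have : e ∈ M := by simpa [hf] using h
          obtain ⟨A, B, h1, h2⟩ := ihM this
          exact ⟨f :: A, B, by simp [h1], by simp [hf, h2]⟩
    obtain ⟨A, B, hL', heA⟩ := key L' hmem
    subst hL'
    -- no element of A touches e
    have hdj : ∀ f ∈ A, Dj e f := by
      intro f hf
      have aux : ∀ x, (e.1 = x ∨ e.2 = x) → loc x A = [] := by
        intro x hx
        have h1 := h x
        have h2 : loc x (e :: L) = e :: loc x L := by
          unfold loc; rw [List.filter_cons]; simp [hx]
        have h3 : loc x (A ++ e :: B) = loc x A ++ loc x (e :: B) := by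
          unfold loc; rw [List.filter_append]
        rw [h2, h3] at h1
        cases hA : loc x A with
        | nil => rfl
        | cons g r =>
          rw [hA] at h1
          simp only [List.cons_append, List.cons.injEq] at h1
          have : g ∈ loc x A := by rw [hA]; simp
          rw [← h1.1] at this
          exact absurd (List.mem_filter.1 this).1 heA
      have nx : ∀ x, (e.1 = x ∨ e.2 = x) → ¬ (f.1 = x ∨ f.2 = x) := by
        intro x hx hfx
        have : f ∈ loc x A := List.mem_filter.2 ⟨hf, by simpa using hfx⟩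
        rw [aux x hx] at this
        simp at this
      have n1 := nx e.1 (Or.inl rfl)
      have n2 := nx e.2 (Or.inr rfl)
      push Not at n1 n2
      exact ⟨n1.1.symm, n1.2.symm, n2.1.symm, n2.2.symm⟩
    obtain ⟨-, m2, m3⟩ := move q X 0 0 e A [] B hdj
    simp only [List.nil_append] at m2 m3
    rw [← m2]
    have h4 : Eqv (e :: L) (e :: A ++ B) := Eqv.trans' h (Eqv.symm' m3)
    have h5 : Eqv L (A ++ B) := by
      intro x
      have := h4 x
      unfold loc at this ⊢
      rw [List.cons_append, List.filter_cons, List.filter_cons] at this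
      split_ifs at this with h6
      · simpa using this
      · exact this
    rw [List.cons_append, List.foldl_cons, List.foldl_cons]
    exact ih (A ++ B) _ h5

end Pool.Agent.X263.BS
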